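import Pool.Agent.Helper31.EC.Ulim

/-! Chapter MAX (4.4): choice of a typical window. A finite family of uniformly bounded monotone functions
`f a i` (index `i` along the ultrafilter) has a common point `s` and scales `2^(-k i)`, `k i → ∞` as slowly as one
likes, at which all the functions are linear up to `o(2^(-k i))`, uniformly on `|u| ≤ A`. -/

namespace Pool.Agent.Helper10.MX

open Filter Topology Set MeasureTheory Pool.Agent.Helper31.EC

noncomputable section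

/-- pointwise closeness on a grid gives uniform closeness for monotone functions -/
theorem approx_unif {θ : ℝ} (f : ℕ → ℝ → ℝ) (g : ℝ → ℝ) (hm : ∀ i, MonotoneOn (f i) (Icc 0 θ))
    (hg : ∀ s ∈ Icc (0:ℝ) θ, Tendsto (fun i => f i s) UF (𝓝 (g s))) {s E J w ω : ℝ} (hE : 0 < E) (hJ : 0 < J)
    (hw : 0 ≤ w) (hω : 0 < ω) (h0 : 0 ≤ s - J * E) (h1 : s + J * E ≤ θ)
    (hlin : ∀ u ∈ Icc (-J) J, |g (s + u * E) - g s - w * u * E| ≤ ω / 4 * E) :
    ∀ᶠ i in UF, ∀ u ∈ Icc (-J) J, |f i (s + u * E) - f i s - w * u * E| ≤ ω * E := by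
  obtain ⟨N, hN⟩ := exists_nat_gt (8 * J * w / ω + 1)
  have hN0 : (0:ℝ) < N := by
    have : 0 ≤ 8 * J * w / ω := by positivity
    linarith
  have hN1 : 2 * J / N * w ≤ ω / 4 := by
    have h2 : 8 * J * w / ω < N := by linarith
    rw [div_lt_iff₀ hω] at h2
    rw [div_mul_eq_mul_div, div_le_iff₀ hN0]
    nlinarith
  set p : ℕ → ℝ := fun l => -J + 2 * J * l / N with hp
  have hpm : ∀ l : ℕ, l ≤ N → p l ∈ Icc (-J) J := by
    intro l hl
    have hl' : (l:ℝ) ≤ N := by exact_mod_cast hl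
    constructor
    · have : 0 ≤ 2 * J * l / N := by positivity
      simp only [hp]; linarith
    · have : 2 * J * l / N ≤ 2 * J := by
        rw [div_le_iff₀ hN0]
        nlinarith
      simp only [hp]; linarith
  have hin : ∀ u ∈ Icc (-J) J, s + u * E ∈ Icc (0:ℝ) θ := by
    intro u hu
    constructor
    · nlinarith [hu.1]
    · nlinarith [hu.2]
  have hs : s ∈ Icc (0:ℝ) θ := by
    have := hin 0 ⟨by linarith, by linarith⟩
    simpa using this
  have hc : ∀ l ∈ Finset.range (N + 1), ∀ᶠ i in UF, |f i (s + p l * E) - g (s + p l * E)| ≤ ω / 8 * E := by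
    intro l hl
    have h2 := hg _ (hin _ (hpm l (by simpa [Nat.lt_succ_iff] using hl)))
    have h3 := (h2.sub_const (g (s + p l * E))).abs
    rw [sub_self, abs_zero] at h3
    filter_upwards [h3.eventually (gt_mem_nhds (show (0:ℝ) < ω / 8 * E by positivity))] with i hi using hi.le
  have hc' : ∀ᶠ i in UF, ∀ l ∈ Finset.range (N + 1), |f i (s + p l * E) - g (s + p l * E)| ≤ ω / 8 * E := by
    rw [Filter.eventually_all_finset]
    exact hc
  have hcs : ∀ᶠ i in UF, |f i s - g s| ≤ ω / 8 * E := by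
    have h3 := ((hg s hs).sub_const (g s)).abs
    rw [sub_self, abs_zero] at h3
    filter_upwards [h3.eventually (gt_mem_nhds (show (0:ℝ) < ω / 8 * E by positivity))] with i hi using hi.le
  filter_upwards [hc', hcs] with i hi his
  intro u hu
  -- the cell of u
  obtain ⟨l, hl, hl1, hl2⟩ : ∃ l : ℕ, l < N ∧ p l ≤ u ∧ u ≤ p (l + 1) := by
    have hu1 : 0 ≤ (u + J) * N / (2 * J) := by
      have : 0 ≤ u + J := by linarith [hu.1]
      positivity
    by_cases hlast : u = J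
    · refine ⟨N - 1, ?_, ?_, ?_⟩
      · have : 0 < N := by exact_mod_cast hN0
        omega
      · have h4 := (hpm (N - 1) (by omega)).2
        rw [hlast]; exact h4
      · have h5 : N - 1 + 1 = N := by
          have : 0 < N := by exact_mod_cast hN0
          omega
        rw [h5, hlast]
        simp only [hp]
        rw [mul_div_assoc, div_self hN0.ne']
        linarith
    · have hu2 : (u + J) * N / (2 * J) < N := by
        rw [div_lt_iff₀ (by positivity)]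
        have : u < J := lt_of_le_of_ne hu.2 hlast
        nlinarith
      refine ⟨⌊(u + J) * N / (2 * J)⌋₊, ?_, ?_, ?_⟩
      · exact (Nat.floor_lt hu1).mpr hu2
      · have h4 := Nat.floor_le hu1
        rw [le_div_iff₀ (by positivity)] at h4
        simp only [hp]
        have h5 : 2 * J * (⌊(u + J) * N / (2 * J)⌋₊ : ℝ) / N ≤ u + J := by
          rw [div_le_iff₀ hN0]; linarith
        linarith
      · have h4 := Nat.lt_floor_add_one ((u + J) * N / (2 * J))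
        rw [div_lt_iff₀ (by positivity)] at h4
        simp only [hp]
        push_cast
        have h5 : u + J ≤ 2 * J * ((⌊(u + J) * N / (2 * J)⌋₊ : ℝ) + 1) / N := by
          rw [le_div_iff₀ hN0]; linarith
        linarith
  have hpl : p (l + 1) = p l + 2 * J / N := by
    simp only [hp]; push_cast; ring
  have a1 := hi l (Finset.mem_range.mpr (by omega))
  have a2 := hi (l + 1) (Finset.mem_range.mpr (by omega))
  have b1 := hlin (p l) (hpm l hl.le)
  have b2 := hlin (p (l + 1)) (hpm (l + 1) (by omega))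
  have m1 := hm i (hin _ (hpm l hl.le)) (hin u hu) (by nlinarith : s + p l * E ≤ s + u * E)
  have m2 := hm i (hin u hu) (hin _ (hpm (l + 1) (by omega))) (by nlinarith : s + u * E ≤ s + p (l + 1) * E)
  rw [abs_le] at a1 a2 b1 b2 his ⊢
  have c1 : w * (p (l + 1) - u) * E ≤ ω / 4 * E := by
    have h6 : p (l + 1) - u ≤ 2 * J / N := by linarith
    have h7 : w * (p (l + 1) - u) ≤ ω / 4 := by
      calc w * (p (l + 1) - u) ≤ w * (2 * J / N) := by gcongr
        _ ≤ ω / 4 := by linarith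
    exact mul_le_mul_of_nonneg_right h7 hE.le
  have c2 : w * (u - p l) * E ≤ ω / 4 * E := by
    have h6 : u - p l ≤ 2 * J / N := by linarith
    have h7 : w * (u - p l) ≤ ω / 4 := by
      calc w * (u - p l) ≤ w * (2 * J / N) := by gcongr
        _ ≤ ω / 4 := by linarith
    exact mul_le_mul_of_nonneg_right h7 hE.le
  constructor
  · nlinarith [a1.1, b1.1, his.2]
  · nlinarith [a2.2, b2.2, his.1]

/-- diagonal in place -/
theorem diag (G : ℕ → ℕ → Prop) (hG : ∀ i, ∀ᶠ k in UF, G i k) :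
    ∃ j : ℕ → ℕ, Tendsto j UF atTop ∧ ∀ᶠ k in UF, G (j k) k := by
  classical
  refine ⟨fun k => Nat.findGreatest (fun j => ∀ i, i ≤ j → G i k) k, ?_, ?_⟩
  · rw [tendsto_atTop]
    intro N
    have h1 : ∀ᶠ k in UF, ∀ i ∈ Finset.range (N + 1), G i k := by
      rw [Filter.eventually_all_finset]
      intro i _
      exact hG i
    filter_upwards [h1, UF_ge N] with k hk hN
    exact Nat.le_findGreatest hN (fun i hi => hk i (Finset.mem_range.mpr (by omega)))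
  · filter_upwards [hG 0] with k hk
    exact Nat.findGreatest_spec (P := fun j => ∀ i, i ≤ j → G i k) (Nat.zero_le k)
      (fun i hi => by
        have : i = 0 := by omega
        rw [this]; exact hk) _ le_rfl

/-- MAX (4.4): CHOICE OF THE WINDOW. The point `s` avoids a given null set; `w a` is the derivative at `s` of the
ultralimit of `f a`. -/
theorem select {θ C : ℝ} (hθ : 0 < θ) {ι : Type*} [Finite ι] (f : ι → ℕ → ℝ → ℝ)
    (hm : ∀ a i, MonotoneOn (f a i) (Icc 0 θ)) (hb : ∀ a i, ∀ s ∈ Icc (0:ℝ) θ, |f a i s| ≤ C)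
    (ε : ℕ → ℝ) (hε : Tendsto ε UF (𝓝 0)) (N : Set ℝ) (hN : volume N = 0) :
    ∃ s ∈ Ioo 0 θ, s ∉ N ∧ ∃ w : ι → ℝ, (∀ a, 0 ≤ w a) ∧ ∃ k : ℕ → ℕ, Tendsto k UF atTop ∧
      Tendsto (fun i => ε i * 2 ^ (k i)) UF (𝓝 0) ∧
      ∀ A ω : ℝ, 0 < ω → ∀ᶠ i in UF, ∀ a, ∀ u ∈ Icc (-A) A, s + u * (1 / 2) ^ (k i) ∈ Ioo 0 θ ∧
        |f a i (s + u * (1 / 2) ^ (k i)) - f a i s - w a * u * (1 / 2) ^ (k i)| ≤ ω * (1 / 2) ^ (k i) := by
  classical
  set g : ι → ℝ → ℝ := fun a s => ul (fun i => f a i s) with hgdef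
  have hub : ∀ a, ∀ s ∈ Icc (0:ℝ) θ, UB (fun i => f a i s) :=
    fun a s hs => ⟨C, Eventually.of_forall fun i => hb a i s hs⟩
  have hg : ∀ a, ∀ s ∈ Icc (0:ℝ) θ, Tendsto (fun i => f a i s) UF (𝓝 (g a s)) :=
    fun a s hs => ul_tendsto (hub a s hs)
  have hgm : ∀ a, MonotoneOn (g a) (Icc 0 θ) := fun a s hs s' hs' hss =>
    ul_mono (hub a s hs) (hub a s' hs') (Eventually.of_forall fun i => hm a i hs hs' hss)
  have hsub : Ioo (0:ℝ) θ ⊆ Icc 0 θ := Ioo_subset_Icc_self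
  -- a common point of differentiability
  obtain ⟨s, hs, hsN, hd⟩ : ∃ s ∈ Ioo (0:ℝ) θ, s ∉ N ∧ ∀ a, DifferentiableAt ℝ (g a) s := by
    have h1 : ∀ a, ∀ᵐ x ∂(volume.restrict (Ioo (0:ℝ) θ)), DifferentiableWithinAt ℝ (g a) (Ioo 0 θ) x :=
      fun a => ((hgm a).mono hsub).ae_differentiableWithinAt measurableSet_Ioo
    have h2 : ∀ᵐ x ∂(volume.restrict (Ioo (0:ℝ) θ)), ∀ a, DifferentiableWithinAt ℝ (g a) (Ioo 0 θ) x :=
      ae_all_iff.mpr h1
    have h3 : ∀ᵐ x ∂(volume.restrict (Ioo (0:ℝ) θ)), x ∈ Ioo (0:ℝ) θ := ae_restrict_mem measurableSet_Ioo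
    have h4 : ∀ᵐ x ∂(volume.restrict (Ioo (0:ℝ) θ)), x ∉ N :=
      ae_restrict_of_ae (measure_eq_zero_iff_ae_notMem.mp hN)
    have h5 : (ae (volume.restrict (Ioo (0:ℝ) θ))).NeBot := by
      rw [ae_restrict_neBot, Real.volume_Ioo]
      simp [hθ]
    obtain ⟨x, hx1, hx2, hx3⟩ := (h2.and (h3.and h4)).exists
    exact ⟨x, hx2, hx3, fun a => (hx1 a).differentiableAt (Ioo_mem_nhds hx2.1 hx2.2)⟩
  have hw : ∀ a, 0 ≤ deriv (g a) s := by
    intro a
    have h1 := ((hgm a).mono hsub).derivWithin_nonneg (x := s)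
    rwa [derivWithin_of_mem_nhds (Ioo_mem_nhds hs.1 hs.2)] at h1
  -- scales
  have hscale : ∀ j : ℕ, ∃ K : ℕ, j ≤ K ∧ 0 < s - ((j:ℝ) + 1) * (1 / 2) ^ K ∧ s + ((j:ℝ) + 1) * (1 / 2) ^ K < θ ∧
      ∀ a, ∀ u ∈ Icc (-((j:ℝ) + 1)) ((j:ℝ) + 1),
        |g a (s + u * (1 / 2) ^ K) - g a s - deriv (g a) s * u * (1 / 2) ^ K| ≤ 1 / ((j:ℝ) + 1) / 4 * (1 / 2) ^ K := by
    intro j
    have hj : (0:ℝ) < (j:ℝ) + 1 := by positivity
    have h1 : ∀ a, ∀ᶠ h in 𝓝 (0:ℝ), |g a (s + h) - g a s - deriv (g a) s * h| ≤ 1 / ((j:ℝ) + 1) ^ 2 / 4 * |h| := by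
      intro a
      have h2 := (hasDerivAt_iff_isLittleO_nhds_zero.mp (hd a).hasDerivAt)
      have h3 := h2.def (show (0:ℝ) < 1 / ((j:ℝ) + 1) ^ 2 / 4 by positivity)
      filter_upwards [h3] with h hh
      simpa [Real.norm_eq_abs, mul_comm, smul_eq_mul] using hh
    have h1' : ∀ᶠ h in 𝓝 (0:ℝ), ∀ a, |g a (s + h) - g a s - deriv (g a) s * h| ≤ 1 / ((j:ℝ) + 1) ^ 2 / 4 * |h| :=
      eventually_all.mpr h1
    obtain ⟨δ, hδ, hδ'⟩ := Metric.eventually_nhds_iff.mp h1'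
    have h5 : Tendsto (fun K : ℕ => ((j:ℝ) + 1) * (1 / 2) ^ K) atTop (𝓝 0) := by
      have := (tendsto_pow_atTop_nhds_zero_of_lt_one (show (0:ℝ) ≤ 1 / 2 by norm_num) (by norm_num)).const_mul ((j:ℝ) + 1)
      simpa using this
    have h6 := h5.eventually (gt_mem_nhds (show (0:ℝ) < min δ (min s (θ - s)) from
      lt_min hδ (lt_min hs.1 (by linarith [hs.2]))))
    obtain ⟨K, hK1, hK2⟩ := (h6.and (eventually_ge_atTop j)).exists
    have e1 := (lt_min_iff.mp hK1).1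
    have e2 := (lt_min_iff.mp (lt_min_iff.mp hK1).2).1
    have e3 := (lt_min_iff.mp (lt_min_iff.mp hK1).2).2
    refine ⟨K, hK2, by linarith, by linarith, ?_⟩
    intro a u hu
    have hE : (0:ℝ) < (1 / 2) ^ K := by positivity
    have hu' : |u * (1 / 2) ^ K| ≤ ((j:ℝ) + 1) * (1 / 2) ^ K := by
      rw [abs_mul, abs_of_pos hE]
      exact mul_le_mul_of_nonneg_right (abs_le.mpr hu) hE.le
    have h7 := hδ' (y := u * (1 / 2) ^ K) (by rw [Real.dist_eq, sub_zero]; linarith) a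
    rw [← mul_assoc] at h7
    refine h7.trans ?_
    calc 1 / ((j:ℝ) + 1) ^ 2 / 4 * |u * (1 / 2) ^ K| ≤ 1 / ((j:ℝ) + 1) ^ 2 / 4 * (((j:ℝ) + 1) * (1 / 2) ^ K) := by
          gcongr
      _ = 1 / ((j:ℝ) + 1) / 4 * (1 / 2) ^ K := by field_simp
  choose K hK1 hK2 hK3 hK4 using hscale
  have hG : ∀ j : ℕ, ∀ᶠ i in UF, |ε i| * 2 ^ (K j) ≤ 1 / ((j:ℝ) + 1) ∧
      ∀ a, ∀ u ∈ Icc (-((j:ℝ) + 1)) ((j:ℝ) + 1),
        |f a i (s + u * (1 / 2) ^ (K j)) - f a i s - deriv (g a) s * u * (1 / 2) ^ (K j)| ≤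
          1 / ((j:ℝ) + 1) * (1 / 2) ^ (K j) := by
    intro j
    have hj : (0:ℝ) < (j:ℝ) + 1 := by positivity
    have h1 : ∀ᶠ i in UF, |ε i| * 2 ^ (K j) ≤ 1 / ((j:ℝ) + 1) := by
      have h2 := (hε.abs).mul_const ((2:ℝ) ^ (K j))
      rw [abs_zero, zero_mul] at h2
      filter_upwards [h2.eventually (gt_mem_nhds (show (0:ℝ) < 1 / ((j:ℝ) + 1) by positivity))] with i hi using hi.le
    have h3 : ∀ a, ∀ᶠ i in UF, ∀ u ∈ Icc (-((j:ℝ) + 1)) ((j:ℝ) + 1),
        |f a i (s + u * (1 / 2) ^ (K j)) - f a i s - deriv (g a) s * u * (1 / 2) ^ (K j)| ≤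
          1 / ((j:ℝ) + 1) * (1 / 2) ^ (K j) := fun a =>
      approx_unif (f a) (g a) (hm a) (hg a) (by positivity) hj (hw a) (by positivity) (hK2 j).le (hK3 j).le (hK4 j a)
    filter_upwards [h1, eventually_all.mpr h3] with i hi1 hi2
    exact ⟨hi1, hi2⟩
  obtain ⟨j, hj1, hj2⟩ := diag (fun j i => |ε i| * 2 ^ (K j) ≤ 1 / ((j:ℝ) + 1) ∧
      ∀ a, ∀ u ∈ Icc (-((j:ℝ) + 1)) ((j:ℝ) + 1),
        |f a i (s + u * (1 / 2) ^ (K j)) - f a i s - deriv (g a) s * u * (1 / 2) ^ (K j)| ≤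
          1 / ((j:ℝ) + 1) * (1 / 2) ^ (K j)) hG
  have hjr : Tendsto (fun i => 1 / ((j i : ℝ) + 1)) UF (𝓝 0) :=
    tendsto_one_div_add_atTop_nhds_zero_nat.comp hj1
  refine ⟨s, hs, hsN, fun a => deriv (g a) s, hw, fun i => K (j i), ?_, ?_, ?_⟩
  · exact tendsto_atTop_mono (fun i => hK1 (j i)) hj1
  · rw [tendsto_zero_iff_abs_tendsto_zero]
    refine squeeze_zero' (Eventually.of_forall fun i => abs_nonneg _) ?_ hjr
    filter_upwards [hj2] with i hi
    show |ε i * 2 ^ (K (j i))| ≤ _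
    rw [abs_mul, abs_of_pos (show (0:ℝ) < 2 ^ (K (j i)) by positivity)]
    exact hi.1
  · intro A ω hω
    have h1 : ∀ᶠ i in UF, A ≤ (j i : ℝ) := (tendsto_natCast_atTop_atTop.comp hj1).eventually_ge_atTop A
    have h2 := hjr.eventually (gt_mem_nhds hω)
    filter_upwards [hj2, h1, h2] with i hi hA hω'
    intro a u hu
    have hE : (0:ℝ) < (1 / 2) ^ (K (j i)) := by positivity
    have hu1 : u ∈ Icc (-((j i:ℝ) + 1)) ((j i:ℝ) + 1) := ⟨by linarith [hu.1], by linarith [hu.2]⟩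
    refine ⟨⟨?_, ?_⟩, (hi.2 a u hu1).trans (mul_le_mul_of_nonneg_right hω'.le hE.le)⟩
    · have := hK2 (j i); nlinarith [hu1.1]
    · have := hK3 (j i); nlinarith [hu1.2]

end

end Pool.Agent.Helper10.MX
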